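import Mathlib
import Pool.Agent.Q105.TwBall
import Pool.Agent.Q105.CRmain
import Pool.Agent.Q105.ConjLimit

/-!
# The limit defining the conjugacy ratio exists
-/

namespace Pool.Agent.Results.MP_d0e86e_al.LimitExists

open Pool.Agent.Q105.TwBall Pool.Agent.Q105.CR Pool.Agent.Q105.CL Filter Topology

/-- For every group `G` and every finite generating set `X` the ratios of the number of conjugacy
classes meeting the ball of radius `n` to the size of that ball converge. -/
theorem result (G : Type*) [Group G] (X : Set G) (hX : X.Finite)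
    (hgen : Subgroup.closure X = ⊤) :
    ∃ L : ℝ, Tendsto (fun n : ℕ =>
      (((ConjClasses.mk '' Ball X n : Set (ConjClasses G)).ncard : ℕ) : ℝ) /
        ((Ball X n).ncard : ℝ)) atTop (𝓝 L) := by
  by_cases h : ∃ A : Subgroup G, A.index ≠ 0 ∧ ∀ x ∈ A, ∀ y ∈ A, x * y = y * x
  · obtain ⟨A, hA, hcomm⟩ := h
    obtain ⟨L, _, hlim⟩ := exists_limit A hA hcomm
    exact ⟨L, hlim X hX hgen⟩
  · refine ⟨0, ?_⟩
    rw [Metric.tendsto_nhds]
    intro ε hε
    by_contra hcon
    apply h
    apply virtuallyAbelian_of_frequently hX hgen ε hε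
    intro hev
    apply hcon
    filter_upwards [hev] with n hn
    push Not at hn
    have hb : (0 : ℝ) < ((Ball X n).ncard : ℝ) := by exact_mod_cast Ball_ncard_pos X hX n
    rw [Real.dist_eq, sub_zero, abs_of_nonneg (by positivity), div_lt_iff₀ hb]
    exact hn

end Pool.Agent.Results.MP_d0e86e_al.LimitExists
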